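import Pool.Agent.W2helper31.GP.Stm

/-!
# Project GP: piece REP (representation of centered Gaussian measures of small rank)
-/

set_option autoImplicit false

open MeasureTheory ProbabilityTheory
open scoped ENNReal NNReal RealInnerProductSpace MatrixOrder

namespace Pool.Agent.W2helper20.GP

open Pool.Agent.W2helper31.GP

/-- factorisation of a positive semidefinite matrix of small rank -/
theorem factor {d r : ℕ} (S : Matrix (Fin d) (Fin d) ℝ) (hS : S.PosSemidef) (hr : S.rank ≤ r) :
    ∃ b : Fin d → Fin r → ℝ, ∀ i k, ∑ j, b i j * b k j = S i k := by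
  obtain ⟨B, hB⟩ : ∃ B : Matrix (Fin d) (Fin d) ℝ, S = B.conjTranspose * B := by
    refine ⟨CFC.sqrt S, ?_⟩
    have h1 : (CFC.sqrt S).conjTranspose = CFC.sqrt S := (CFC.sqrt_nonneg S).isSelfAdjoint
    rw [h1, CFC.sqrt_mul_sqrt_self S hS.nonneg]
  have hrank : B.rank ≤ r := by
    rw [← Matrix.rank_conjTranspose_mul_self, ← hB]
    exact hr
  let e := (WithLp.linearEquiv 2 ℝ (Fin d → ℝ)).symm
  let V : Submodule ℝ (EuclideanSpace ℝ (Fin d)) :=
    (Submodule.span ℝ (Set.range B.col)).map e.toLinearMap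
  have hV : Module.finrank ℝ V ≤ r := by
    have h1 : Module.finrank ℝ V = B.rank := by
      rw [Matrix.rank_eq_finrank_span_cols]
      exact LinearEquiv.finrank_map_eq e _
    rw [h1]
    exact hrank
  let x : Fin d → V := fun i => ⟨e (B.col i), Submodule.mem_map_of_mem
    (Submodule.subset_span ⟨i, rfl⟩)⟩
  let u := stdOrthonormalBasis ℝ V
  refine ⟨fun i j => if h : (j : ℕ) < Module.finrank ℝ V then ⟪x i, u ⟨j, h⟩⟫ else 0, fun i k => ?_⟩
  have h1 : ∑ j : Fin r, (if h : (j : ℕ) < Module.finrank ℝ V then ⟪x i, u ⟨j, h⟩⟫ else 0) *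
      (if h : (j : ℕ) < Module.finrank ℝ V then ⟪x k, u ⟨j, h⟩⟫ else 0) =
      ∑ j : Fin (Module.finrank ℝ V), ⟪x i, u j⟫ * ⟪u j, x k⟫ := by
    symm
    apply Finset.sum_of_injOn (Fin.castLE hV) (Fin.castLE_injective hV).injOn
    · intro _ _
      exact Finset.mem_coe.2 (Finset.mem_univ _)
    · intro j _ hj
      have h2 : ¬ (j : ℕ) < Module.finrank ℝ V := by
        intro h
        exact hj ⟨⟨j, h⟩, Finset.mem_coe.2 (Finset.mem_univ _), Fin.ext rfl⟩
      rw [dif_neg h2, zero_mul]
    · intro j _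
      have h2 : ((Fin.castLE hV j : Fin r) : ℕ) < Module.finrank ℝ V := j.2
      rw [dif_pos h2, dif_pos h2, real_inner_comm (x k)]
      rfl
  rw [h1, u.sum_inner_mul_inner, hB]
  change ⟪e (B.col i), e (B.col k)⟫ = _
  rw [Matrix.mul_apply]
  simp only [PiLp.inner_apply, Matrix.conjTranspose_apply, star_trivial]
  exact Finset.sum_congr rfl fun j _ => by
    change B j k * B j i = _
    ring

theorem apply_eq {d : ℕ} (L : StrongDual ℝ (Fin d → ℝ)) (x : Fin d → ℝ) :
    L x = ∑ i, x i * L (Pi.single i 1) := by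
  conv_lhs => rw [pi_eq_sum_univ' x]
  rw [map_sum]
  exact Finset.sum_congr rfl fun i _ => by
    rw [map_smul, smul_eq_mul]

theorem p_rep : P_REP := by
  intro d r mu hmu hmean hrank
  have hmem : ∀ i : Fin d, MemLp (fun x : Fin d → ℝ => x i) 2 mu := fun i =>
    IsGaussian.memLp_dual mu (ContinuousLinearMap.proj (R := ℝ) (φ := fun _ : Fin d => ℝ) i) 2
      (by simp)
  have hint : ∀ i k : Fin d, Integrable (fun x : Fin d → ℝ => x i * x k) mu := fun i k =>
    (hmem i).integrable_mul (hmem k)
  -- the second moment of a linear form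
  have hsq : ∀ c : Fin d → ℝ, ∫ x, (∑ i, x i * c i) ^ 2 ∂mu =
      ∑ i, ∑ k, c i * c k * ∫ x, x i * x k ∂mu := by
    intro c
    have h1 : ∀ x : Fin d → ℝ, (∑ i, x i * c i) ^ 2 = ∑ i, ∑ k, c i * c k * (x i * x k) := by
      intro x
      rw [sq, Finset.sum_mul_sum]
      exact Finset.sum_congr rfl fun i _ => Finset.sum_congr rfl fun k _ => by ring
    simp_rw [h1]
    rw [integral_finsetSum _ fun i _ => integrable_finsetSum _ fun k _ =>
      (hint i k).const_mul _]
    refine Finset.sum_congr rfl fun i _ => ?_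
    rw [integral_finsetSum _ fun k _ => (hint i k).const_mul _]
    exact Finset.sum_congr rfl fun k _ => integral_const_mul _ _
  have hpsd : (Matrix.of fun i k : Fin d => ∫ x, x i * x k ∂mu).PosSemidef := by
    refine Matrix.PosSemidef.of_dotProduct_mulVec_nonneg ?_ fun c => ?_
    · ext i k
      simp only [Matrix.conjTranspose_apply, Matrix.of_apply, star_trivial]
      simp_rw [mul_comm]
    · have h2 : star c ⬝ᵥ (Matrix.of fun i k : Fin d => ∫ x, x i * x k ∂mu).mulVec c =
          ∫ x, (∑ i, x i * c i) ^ 2 ∂mu := by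
        rw [hsq]
        simp only [dotProduct, Matrix.mulVec, Matrix.of_apply, star_trivial, Pi.star_apply,
          Finset.mul_sum]
        exact Finset.sum_congr rfl fun i _ => Finset.sum_congr rfl fun k _ => by ring
      rw [h2]
      exact integral_nonneg fun x => sq_nonneg _
  obtain ⟨b, hb⟩ := factor _ hpsd hrank
  refine ⟨b, ?_⟩
  -- the linear map
  let T : EuclideanSpace ℝ (Fin r) →L[ℝ] (Fin d → ℝ) :=
    ContinuousLinearMap.pi fun i => InnerProductSpace.toDualMap ℝ _ (WithLp.toLp 2 (b i))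
  have hT : ∀ x : EuclideanSpace ℝ (Fin r), ∀ i, T x i = ∑ j, b i j * x j := by
    intro x i
    change ⟪WithLp.toLp 2 (b i), x⟫ = _
    simp only [PiLp.inner_apply]
    exact Finset.sum_congr rfl fun j _ => by
      change x j * b i j = _
      ring
  have hmap : (Gam r).map (fun x i => ∑ j, b i j * x j) =
      (stdGaussian (EuclideanSpace ℝ (Fin r))).map T := by
    rw [← map_pi_eq_stdGaussian, Measure.map_map T.continuous.measurable (by fun_prop)]
    congr 1
    ext x i
    rw [Function.comp_apply, hT]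
  rw [hmap]
  have : IsGaussian mu := hmu
  apply Measure.ext_of_charFunDual
  ext L
  rw [charFunDual_map]
  let c : Fin d → ℝ := fun i => L (Pi.single i 1)
  have hL : L.comp T = InnerProductSpace.toDualMap ℝ _
      (WithLp.toLp 2 (fun j => ∑ i, b i j * c i)) := by
    ext x
    rw [ContinuousLinearMap.comp_apply, apply_eq]
    change _ = ⟪WithLp.toLp 2 (fun j => ∑ i, b i j * c i), x⟫
    simp only [PiLp.inner_apply, hT]
    simp_rw [Finset.sum_mul]
    rw [Finset.sum_comm]
    refine Finset.sum_congr rfl fun j _ => ?_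
    change _ = x j * ∑ i, b i j * c i
    rw [Finset.mul_sum]
    exact Finset.sum_congr rfl fun i _ => by ring
  rw [hL, ← charFun_eq_charFunDual_toDualMap, charFun_stdGaussian, IsGaussian.charFunDual_eq]
  have hmeanL : mu[L] = 0 := by
    have h1 : ∫ x, id x ∂mu = 0 := hmean
    rw [ContinuousLinearMap.integral_comp_id_comm', h1, map_zero]
    exact IsGaussian.integrable_id
  have hvar : Var[L; mu] = ‖(WithLp.toLp 2 (fun j => ∑ i, b i j * c i) :
      EuclideanSpace ℝ (Fin r))‖ ^ 2 := by
    rw [variance_of_integral_eq_zero (by fun_prop) hmeanL, EuclideanSpace.real_norm_sq_eq]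
    have h1 : ∀ x, L x ^ 2 = (∑ i, x i * c i) ^ 2 := fun x => by rw [apply_eq]
    simp_rw [h1]
    rw [hsq]
    have h2 : ∀ j, (∑ i, b i j * c i) ^ 2 = ∑ i, ∑ k, c i * c k * (b i j * b k j) := by
      intro j
      rw [sq, Finset.sum_mul_sum]
      exact Finset.sum_congr rfl fun i _ => Finset.sum_congr rfl fun k _ => by ring
    simp_rw [h2]
    symm
    rw [Finset.sum_comm]
    refine Finset.sum_congr rfl fun i _ => ?_
    rw [Finset.sum_comm]
    refine Finset.sum_congr rfl fun k _ => ?_
    rw [← Finset.mul_sum, hb]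
    rfl
  rw [integral_complex_ofReal, hmeanL, hvar]
  simp
  ring_nf

end Pool.Agent.W2helper20.GP
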